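import Pool.Agent.Helper18.SU.Goals2

/-!
Packet COUNT of the Sumner campaign.
-/

set_option autoImplicit false

namespace Pool.Agent.Helper2.SU

open Pool.Agent.Helper18.SU

theorem choice_card {W : Type} [Fintype W] [DecidableEq W] {r : W} {par : W → W}
    (A L : Finset W) (h : ∀ c ∈ A, c ∉ L → ∃ w, w ≠ r ∧ par w = c) :
    ∃ B : Finset W, A.card ≤ B.card + L.card ∧ ∀ x ∈ B, x ≠ r ∧ par x ∈ A := by
  choose! w hw using h
  refine ⟨(A \ L).image w, ?_, ?_⟩
  · have hinj : Set.InjOn w ((A \ L : Finset W) : Set W) := by
      intro x hx y hy hxy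
      have hx' := Finset.mem_sdiff.1 (Finset.mem_coe.1 hx)
      have hy' := Finset.mem_sdiff.1 (Finset.mem_coe.1 hy)
      rw [← (hw x hx'.1 hx'.2).2, ← (hw y hy'.1 hy'.2).2, hxy]
    rw [Finset.card_image_of_injOn hinj]
    have := Finset.card_le_card (show A ⊆ (A \ L) ∪ L by
      intro x hx
      by_cases hL : x ∈ L
      · exact Finset.mem_union_right _ hL
      · exact Finset.mem_union_left _ (Finset.mem_sdiff.2 ⟨hx, hL⟩))
    exact this.trans (Finset.card_union_le _ _)
  · intro x hx
    obtain ⟨c, hc, rfl⟩ := Finset.mem_image.1 hx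
    have hc' := Finset.mem_sdiff.1 hc
    refine ⟨(hw c hc'.1 hc'.2).1, ?_⟩
    rw [(hw c hc'.1 hc'.2).2]
    exact hc'.1

theorem COUNT (_h1 : DSC_stmt) : COUNT_stmt := by
  intro W _ _ r u par dep hR sgn LO LI _ hLO
  obtain ⟨hd0, hpr, hdep⟩ := hR
  have mem_chd : ∀ (v : W) (d : Bool) (c : W),
      c ∈ chd r par sgn v d ↔ c ≠ r ∧ par c = v ∧ sgn c = d := by
    intro v d c
    simp only [chd, Finset.mem_filter, Finset.mem_univ, true_and]
  have hdpos : ∀ w, w ≠ r → 0 < dep w := by
    intro w hw
    have := hdep w hw
    omega
  obtain ⟨B, hBc, hB⟩ := choice_card (chd r par sgn r true) LO hLO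
  have hB' : ∀ x ∈ B, x ≠ r ∧ par x ≠ r ∧ par (par x) = r ∧ sgn (par x) = true := by
    intro x hx
    obtain ⟨h1, h2⟩ := hB x hx
    rw [mem_chd] at h2
    exact ⟨h1, h2.1, h2.2.1, h2.2.2⟩
  have hAB : Disjoint (chd r par sgn r true) B := by
    rw [Finset.disjoint_left]
    intro x hx hxB
    rw [mem_chd] at hx
    exact (hB' x hxB).2.1 hx.2.1
  constructor
  · intro hu hLI
    obtain ⟨B', hBc', hB2⟩ := choice_card (chd r par sgn u false) LI hLI
    have hB2' : ∀ x ∈ B', x ≠ r ∧ par x ≠ r ∧ par (par x) = u ∧ sgn (par x) = false := by
      intro x hx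
      obtain ⟨h1, h2⟩ := hB2 x hx
      rw [mem_chd] at h2
      exact ⟨h1, h2.1, h2.2.1, h2.2.2⟩
    -- the path
    have hdk : ∀ k ≤ dep u, dep (par^[k] u) + k = dep u := by
      intro k
      induction k with
      | zero => intro _; rfl
      | succ k ih =>
        intro hk
        have h1 := ih (by omega)
        rw [Function.iterate_succ_apply']
        have hne : par^[k] u ≠ r := by
          intro h
          rw [h, hd0] at h1
          omega
        have := hdep _ hne
        omega
    set Q : Finset W := (Finset.range (dep u + 1)).image (fun k => par^[k] u) with hQ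
    have hQc : Q.card = dep u + 1 := by
      rw [hQ, Finset.card_image_of_injOn, Finset.card_range]
      intro i hi j hj hij
      rw [Finset.mem_coe, Finset.mem_range] at hi hj
      have h1 := hdk i (by omega)
      have h2 := hdk j (by omega)
      simp only at hij
      rw [hij] at h1
      omega
    have hQd : ∀ x ∈ Q, dep x ≤ dep u := by
      intro x hx
      obtain ⟨k, hk, rfl⟩ := Finset.mem_image.1 hx
      rw [Finset.mem_range] at hk
      have := hdk k (by omega)
      omega
    have hQs : ∀ x ∈ Q, x ≠ r → sgn x = false := by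
      intro x hx hxr
      obtain ⟨k, -, rfl⟩ := Finset.mem_image.1 hx
      exact hu k hxr
    have hQp : ∀ x ∈ Q, par x ≠ r → sgn (par x) = false := by
      intro x hx hxr
      obtain ⟨k, -, rfl⟩ := Finset.mem_image.1 hx
      have := hu (k + 1)
      rw [Function.iterate_succ_apply'] at this
      exact this hxr
    have d1 : Disjoint Q (chd r par sgn r true) := by
      rw [Finset.disjoint_left]
      intro x hx hx'
      rw [mem_chd] at hx'
      have := hQs x hx hx'.1
      rw [hx'.2.2] at this
      exact absurd this (by decide)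
    have d2 : Disjoint Q B := by
      rw [Finset.disjoint_left]
      intro x hx hx'
      obtain ⟨h1, h2, h3, h4⟩ := hB' x hx'
      have := hQp x hx h2
      rw [h4] at this
      exact absurd this (by decide)
    have hdA3 : ∀ x ∈ chd r par sgn u false, dep x = dep u + 1 := by
      intro x hx
      rw [mem_chd] at hx
      have := hdep x hx.1
      rw [hx.2.1] at this
      omega
    have hdA4 : ∀ x ∈ B', dep x = dep u + 2 := by
      intro x hx
      obtain ⟨h1, h2, h3, h4⟩ := hB2' x hx
      have e1 := hdep x h1
      have e2 := hdep (par x) h2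
      rw [h3] at e2
      omega
    have d3 : Disjoint Q (chd r par sgn u false) := by
      rw [Finset.disjoint_left]
      intro x hx hx'
      have e1 := hQd x hx
      have e2 := hdA3 x hx'
      omega
    have d4 : Disjoint Q B' := by
      rw [Finset.disjoint_left]
      intro x hx hx'
      have e1 := hQd x hx
      have e2 := hdA4 x hx'
      omega
    have d13 : Disjoint (chd r par sgn r true) (chd r par sgn u false) := by
      rw [Finset.disjoint_left]
      intro x hx hx'
      rw [mem_chd] at hx hx'
      have := hx.2.2
      rw [hx'.2.2] at this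
      exact absurd this (by decide)
    have d14 : Disjoint (chd r par sgn r true) B' := by
      rw [Finset.disjoint_left]
      intro x hx hx'
      rw [mem_chd] at hx
      exact (hB2' x hx').2.1 hx.2.1
    have d23 : Disjoint B (chd r par sgn u false) := by
      rw [Finset.disjoint_left]
      intro x hx hx'
      obtain ⟨h1, h2, h3, h4⟩ := hB' x hx
      rw [mem_chd] at hx'
      rw [hx'.2.1] at h2 h4
      have := hu 0 h2
      rw [Function.iterate_zero, id] at this
      rw [h4] at this
      exact absurd this (by decide)
    have d24 : Disjoint B B' := by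
      rw [Finset.disjoint_left]
      intro x hx hx'
      have h4 := (hB' x hx).2.2.2
      have h5 := (hB2' x hx').2.2.2
      rw [h4] at h5
      exact absurd h5 (by decide)
    have d34 : Disjoint (chd r par sgn u false) B' := by
      rw [Finset.disjoint_left]
      intro x hx hx'
      have e1 := hdA3 x hx
      have e2 := hdA4 x hx'
      omega
    have hcard := Finset.card_le_univ
      (((Q ∪ chd r par sgn r true) ∪ B) ∪ (chd r par sgn u false ∪ B'))
    rw [Finset.card_union_of_disjoint, Finset.card_union_of_disjoint,
      Finset.card_union_of_disjoint d1, Finset.card_union_of_disjoint d34] at hcard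
    · omega
    · rw [Finset.disjoint_union_left]
      exact ⟨d2, hAB⟩
    · rw [Finset.disjoint_union_left, Finset.disjoint_union_left, Finset.disjoint_union_right,
        Finset.disjoint_union_right, Finset.disjoint_union_right]
      exact ⟨⟨⟨d3, d4⟩, ⟨d13, d14⟩⟩, ⟨d23, d24⟩⟩
  · have mem_anc : ∀ w, w ∈ anc r par sgn ↔ ∀ k : ℕ, par^[k] w ≠ r → sgn (par^[k] w) = false := by
      intro w
      simp only [anc, Finset.mem_filter, Finset.mem_univ, true_and]
    have d1 : Disjoint (anc r par sgn) (chd r par sgn r true) := by
      rw [Finset.disjoint_left]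
      intro x hx hx'
      rw [mem_anc] at hx
      rw [mem_chd] at hx'
      have := hx 0 hx'.1
      rw [Function.iterate_zero, id] at this
      rw [hx'.2.2] at this
      exact absurd this (by decide)
    have d2 : Disjoint (anc r par sgn) B := by
      rw [Finset.disjoint_left]
      intro x hx hx'
      rw [mem_anc] at hx
      obtain ⟨h1, h2, h3, h4⟩ := hB' x hx'
      have := hx 1
      rw [Function.iterate_one] at this
      have h5 := this h2
      rw [h4] at h5
      exact absurd h5 (by decide)
    have hcard := Finset.card_le_univ ((anc r par sgn ∪ chd r par sgn r true) ∪ B)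
    rw [Finset.card_union_of_disjoint, Finset.card_union_of_disjoint d1] at hcard
    · omega
    · rw [Finset.disjoint_union_left]
      exact ⟨d2, hAB⟩

end Pool.Agent.Helper2.SU
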